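import Pool.Agent.KS6_96.SC.Conf2

/-!
# MP_c77999_an, Q1 (`r_n > √(n - 1)`) for many orders `n`

`Q n` is the set of the sign matrices of order `n` (as complex matrices), `schurN` the Schur
multiplier norm and `r n` its maximum on `Q n`. We prove `r n > √(n - 1)`

* if one of `n - 1`, `n`, `n + 1` is the order of a Hadamard matrix (so, under Hadamard's conjecture,
  for all `n` which are not `2` modulo `4`);
* if `n` is the order of a symmetric conference matrix, or `n = h + 2` where some Hadamard matrix of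
  order `h` has a flat plane: it maps two orthogonal sign vectors to `p b₀ + q b₁` and `p b₁ - q b₀`,
  for sign vectors `b₀`, `b₁` and `p, q ≥ 0` with `p ^ 2 + q ^ 2 = h`. This holds for `h = 2 ^ k m ^ 2`
  and `h = 20 * 2 ^ k * m ^ 2`, where `m` is the order of a Hadamard matrix, and for `h = 2 c`, where `c`
  is the order of a regular symmetric conference matrix (these `n` are `2` modulo `4`, except the small
  ones);
* if some sign matrix of order `n` has rows with `∑_{i ≠ j} ⟨r_i, r_j⟩ ^ 2 ≤ 2 n ^ 2` and singular values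
  at least `(√2 - 1) √n`.

All lower bounds are of the form `r n ≥ ∑ u_i M_ij V_ij u_j / ∑ u_i ^ 2` for an orthogonal matrix `V`.
For the criterion `V` is the polar factor of `M` and `s ≥ 1 + (s² - 1)/2 - (s² - 1)²/4` for
`s ≥ √2 - 1` is used for the singular values; for a conference matrix `C` the matrix is `C + D` with an
alternating diagonal `D`. For `n = h + 2` the Hadamard matrix is bordered by the sign vectors of its
flat plane, and the weights of the new rows and columns are `√3 / 2`. The order `m ^ 2` has a flat plane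
by the Latin square construction with the blocks `h_lᵀ h_l`.
-/

namespace Pool.Agent.Results.MP_c77999_an.ManyOrders

open Finset Matrix Pool.Agent.KS6_96.SC

lemma crit (n : ℕ) (M : Matrix (Fin n) (Fin n) ℝ) (hn : 1 ≤ n) (hM : IsSign M)
    (h2 : ∑ i, ∑ j ∈ univ.erase i, (∑ k, M i k * M j k) ^ 2 ≤ 2 * (n : ℝ) ^ 2)
    (h3 : ∀ w : Fin n → ℝ, (√2 - 1) ^ 2 * (n : ℝ) * ∑ i, w i ^ 2 ≤
      ∑ j, (∑ i, w i * M i j) ^ 2) :
    √(n : ℝ) * (1 - 1 / (2 * (n : ℝ))) ≤ r n := by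
  have hc := criterion (ι := Fin n) (by rw [Fintype.card_fin]; omega) M hM
  rw [Fintype.card_fin] at hc
  exact hc h2 h3

lemma main (n : ℕ) (hn : 1 ≤ n) (h : HadOrder (n - 1) ∨ HadOrder n ∨ HadOrder (n + 1) ∨
    ConfOrder n ∨ ∃ h, 1 ≤ h ∧ PlaneOrder h ∧ n = h + 2) : √((n : ℝ) - 1) < r n := by
  have hn' : (1 : ℝ) ≤ n := by exact_mod_cast hn
  have hhad : ∀ n : ℕ, 1 ≤ n → HadOrder n → √((n : ℝ) - 1) < r n := by
    intro n hn h
    have hn' : (1 : ℝ) ≤ n := by exact_mod_cast hn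
    exact lt_of_lt_of_le (Real.sqrt_lt_sqrt (by linarith) (by linarith)) (r_had (by omega) h)
  have hpred : ∀ n : ℕ, 1 ≤ n → HadOrder (n - 1) → √((n : ℝ) - 1) < r n := by
    intro n hn h
    obtain ⟨k, rfl⟩ : ∃ k, n = k + 1 := ⟨n - 1, by omega⟩
    rcases Nat.eq_zero_or_pos k with rfl | hk
    · exact hhad 1 le_rfl hadOrder_one
    · have h1 := r_had hk (by simpa using h)
      have h2 := r_succ (n := k) hk
      have hk' : (0 : ℝ) < k := by exact_mod_cast hk
      have h3 : 0 < 1 / (4 * (k : ℝ)) := by positivity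
      push_cast
      rw [add_sub_cancel_right]
      linarith
  rcases h with h | h | h | h | ⟨h, hh, hP, rfl⟩
  · exact hpred n hn h
  · exact hhad n hn h
  · exact lt_of_lt_of_le (core_gt hn') (r_core (by omega) h)
  · by_cases h5 : 5 ≤ n
    · exact lt_of_lt_of_le (sqrt_lt hn') (r_conf h5 h)
    · have h4 : HadOrder 4 := by simpa using hadOrder_pow 2
      rcases (by omega : n = 1 ∨ n = 2 ∨ n = 3 ∨ n = 4) with rfl | rfl | rfl | rfl
      · exact hhad 1 (by norm_num) hadOrder_one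
      · exact hhad 2 (by norm_num) hadOrder_two
      · exact hpred 3 (by norm_num) hadOrder_two
      · exact hhad 4 (by norm_num) h4
  · have h1 := r_plane hh hP
    have h3 := flat_gt (h := (h : ℝ)) (by exact_mod_cast hh)
    refine lt_of_lt_of_le ?_ h1
    refine lt_of_le_of_lt (le_of_eq ?_) h3
    congr 1
    push_cast
    ring

lemma main2 (n k m : ℕ) (hm : 1 ≤ m) (h : HadOrder m)
    (hn : n = 2 ^ k * m ^ 2 + 2 ∨ n = 20 * 2 ^ k * m ^ 2 + 2) : √((n : ℝ) - 1) < r n := by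
  rcases hn with rfl | rfl
  · have h0 : 1 ≤ 2 ^ k * m ^ 2 := Nat.succ_le_of_lt (by positivity)
    by_cases h2 : 2 ≤ 2 ^ k * m ^ 2
    · exact main _ (by omega) (Or.inr (Or.inr (Or.inr (Or.inr
        ⟨_, h0, plane_orders k hm h h2, rfl⟩))))
    · have h3 : 2 ^ k * m ^ 2 = 1 := by omega
      rw [h3]
      exact main 3 (by norm_num) (Or.inl hadOrder_two)
  · have h0 : 1 ≤ 20 * 2 ^ k * m ^ 2 := Nat.succ_le_of_lt (by positivity)
    exact main _ (by omega) (Or.inr (Or.inr (Or.inr (Or.inr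
      ⟨_, h0, plane_twenty k hm h, rfl⟩))))

/-- **Q1 for many orders.** `r n` is the maximum of the Schur multiplier norms of the sign matrices of
order `n`, and `√(n - 1) < r n` in the cases below; lower bounds for `r n`. -/
theorem result :
    (∀ n : ℕ, (∃ M ∈ Q n, schurN M = r n) ∧ ∀ M ∈ Q n, schurN M ≤ r n) ∧
    (∀ n : ℕ, 1 ≤ n → (HadOrder (n - 1) ∨ HadOrder n ∨ HadOrder (n + 1) ∨ ConfOrder n ∨
      ∃ h, 1 ≤ h ∧ PlaneOrder h ∧ n = h + 2) → √((n : ℝ) - 1) < r n) ∧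
    (∀ n k m : ℕ, 1 ≤ m → HadOrder m → (n = 2 ^ k * m ^ 2 + 2 ∨ n = 20 * 2 ^ k * m ^ 2 + 2) →
      √((n : ℝ) - 1) < r n) ∧
    (∀ c : ℕ, 1 ≤ c → RegConf c → √(2 * (c : ℝ) + 1) < r (2 * c + 2)) ∧
    (∀ k q n : ℕ, IsPrimePow q → q % 4 = 3 →
      (n = q ∨ n = q + 1 ∨ n = q + 2 ∨ n = 2 ^ k * (q + 1) ^ 2 + 2) → √((n : ℝ) - 1) < r n) ∧
    (∀ k q n : ℕ, IsPrimePow q → q % 4 = 1 →
      (n = q + 1 ∨ n = 2 * q + 1 ∨ n = 2 * q + 2 ∨ n = 2 * q + 3 ∨
        n = 2 ^ k * (2 * q + 2) ^ 2 + 2) → √((n : ℝ) - 1) < r n) ∧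
    (∀ k n : ℕ, 1 ≤ k →
      (n = 2 ^ k - 1 ∨ n = 2 ^ k ∨ n = 2 ^ k + 1 ∨ n = 2 ^ k + 2 ∨ n = 10 * 2 ^ k + 2) →
      √((n : ℝ) - 1) < r n) ∧
    (∀ n : ℕ, 1 ≤ n → HadOrder (n + 1) → (((n : ℝ) - 1) * √((n : ℝ) + 1) + 1) / n ≤ r n) ∧
    (∀ n : ℕ, 5 ≤ n → ConfOrder n → √(n : ℝ) * (1 - 1 / (2 * (n : ℝ))) ≤ r n) ∧
    (∀ h : ℕ, 1 ≤ h → PlaneOrder h →
      (((h : ℝ) + 2) * √(h : ℝ) + 3 / 4) / ((h : ℝ) + 3 / 2) ≤ r (h + 2)) ∧
    (∀ (n : ℕ) (M : Matrix (Fin n) (Fin n) ℝ), 1 ≤ n → IsSign M →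
      ∑ i, ∑ j ∈ univ.erase i, (∑ k, M i k * M j k) ^ 2 ≤ 2 * (n : ℝ) ^ 2 →
      (∀ w : Fin n → ℝ, (√2 - 1) ^ 2 * (n : ℝ) * ∑ i, w i ^ 2 ≤ ∑ j, (∑ i, w i * M i j) ^ 2) →
      √(n : ℝ) * (1 - 1 / (2 * (n : ℝ))) ≤ r n ∧ √((n : ℝ) - 1) < r n) := by
  refine ⟨fun n => ⟨exists_r n, fun M hM => schurN_le_r hM⟩, main,
    fun n k m hm h hn => main2 n k m hm h hn, ?_, ?_, ?_, ?_,
    fun n hn h => r_core (by omega) h, fun n hn h => r_conf hn h,
    fun h hh hP => r_plane hh hP, ?_⟩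
  · intro c hc h
    have h1 := main (2 * c + 2) (by omega) (Or.inr (Or.inr (Or.inr (Or.inr
      ⟨2 * c, by omega, h.plane, rfl⟩))))
    refine lt_of_le_of_lt (le_of_eq ?_) h1
    congr 1
    push_cast
    ring
  · intro k q n hq h3 hn
    have hH := had_primePow hq h3
    rcases hn with rfl | rfl | rfl | h
    · exact main _ hq.pos (Or.inr (Or.inr (Or.inl hH)))
    · exact main _ (by omega) (Or.inr (Or.inl hH))
    · exact main _ (by omega) (Or.inl hH)
    · exact main2 n k (q + 1) (by omega) hH (Or.inl h)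
  · intro k q n hq h1 hn
    have hC := conf_primePow hq h1
    have hH : HadOrder (2 * q + 2) := hC.had
    rcases hn with rfl | rfl | rfl | rfl | h
    · exact main _ (by omega) (Or.inr (Or.inr (Or.inr (Or.inl hC))))
    · exact main _ (by omega) (Or.inr (Or.inr (Or.inl hH)))
    · exact main _ (by omega) (Or.inr (Or.inl hH))
    · exact main _ (by omega) (Or.inl hH)
    · exact main2 n k (2 * q + 2) (by omega) hH (Or.inl h)
  · intro k n hk hn
    have hH := hadOrder_pow k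
    have h2k : 2 ≤ 2 ^ k := by
      calc 2 = 2 ^ 1 := by norm_num
        _ ≤ 2 ^ k := Nat.pow_le_pow_right (by norm_num) hk
    rcases hn with rfl | rfl | rfl | rfl | rfl
    · refine main _ (by omega) (Or.inr (Or.inr (Or.inl ?_)))
      rwa [Nat.sub_add_cancel (by omega)]
    · exact main _ (by omega) (Or.inr (Or.inl hH))
    · exact main _ (by omega) (Or.inl (by simpa using hH))
    · exact main2 _ k 1 le_rfl hadOrder_one (Or.inl (by ring))
    · obtain ⟨j, rfl⟩ : ∃ j, k = j + 1 := ⟨k - 1, by omega⟩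
      exact main2 _ j 1 le_rfl hadOrder_one (Or.inr (by ring))
  · intro n M hn hM h2 h3
    have h1 := crit n M hn hM h2 h3
    exact ⟨h1, lt_of_lt_of_le (sqrt_lt (by exact_mod_cast hn)) h1⟩

end Pool.Agent.Results.MP_c77999_an.ManyOrders
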