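import Pool.Agent.KS6_96.SG.Growth
import Pool.Agent.KS6_96.SC.Orders

/-!
# MP_c77999_an, Q2: increments of the order `1 / √n`

`r n` is the maximum of the Schur multiplier norms of the `n × n` sign matrices (definitions in
`Pool/Agent/KS6_96/SG/SNDefs.lean`). We show `r (n + 1) ≥ r n + (3 / 2500) (r n) ^ 3 / n ^ 2`, hence
`r (n + 1) ≥ r n + 1 / (2500 √n)`: since `r n ≤ √n`, this is the right order of magnitude.

Let `M`, `u`, `v`, `V` (a sign matrix, unit vectors, an orthogonal matrix) be optimal for `n`. Border `V`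
by a rotation in the direction `k`, where `k` has the entries `± 1 / √n`, and `M` by the signs of
`u_i (V k)_i` and `- v_j k_j`. Khintchine's inequality shows that for some signs the linear gain beats the
quadratic loss.
-/

namespace Pool.Agent.Results.MP_c77999_an.SqrtIncrements

open Matrix Pool.Agent.KS6_96

/-- Hadamard orders. -/
lemma had_le (n : ℕ) (hn : 1 ≤ n) (h : SC.HadOrder n) : √(n : ℝ) ≤ SG.r n := by
  obtain ⟨H, hH, hH2⟩ := h
  obtain ⟨-, -, -, -, -, -, -, -, -, -, -, hmax⟩ := SG.r_spec n hn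
  have hn0 : (0 : ℝ) < n := by exact_mod_cast hn
  set s := √(n : ℝ) with hs
  have hs2 : s * s = n := Real.mul_self_sqrt hn0.le
  have hs0 : 0 < s := Real.sqrt_pos.2 hn0
  have hss : s⁻¹ * s⁻¹ = (n : ℝ)⁻¹ := by rw [← mul_inv, hs2]
  have hone : ∑ _i : Fin n, s⁻¹ * s⁻¹ = 1 := by
    rw [hss]
    simp
    exact mul_inv_cancel₀ hn0.ne'
  have hV : (s⁻¹ • H)ᵀ * (s⁻¹ • H) = 1 := by
    apply mul_eq_one_comm.1
    rw [Matrix.transpose_smul, Matrix.smul_mul, Matrix.mul_smul, hH2, smul_smul, smul_smul, hss,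
      inv_mul_cancel₀ hn0.ne', one_smul]
  have h1 := hmax H (s⁻¹ • H) (fun _ => s⁻¹) (fun _ => s⁻¹) hH hV hone hone
  refine le_trans (le_of_eq ?_) h1
  unfold SG.val
  have h2 : ∀ i j, s⁻¹ * H i j * s⁻¹ * (s⁻¹ • H) i j = (n : ℝ)⁻¹ * s⁻¹ := by
    intro i j
    rw [Matrix.smul_apply, smul_eq_mul, ← hss]
    rcases hH i j with h | h <;> rw [h] <;> ring
  rw [Finset.sum_congr rfl fun i _ => Finset.sum_congr rfl fun j _ => h2 i j]
  simp only [Finset.sum_const, Finset.card_univ, Fintype.card_fin, nsmul_eq_mul]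
  rw [← hs2]
  field_simp

lemma half_le (n : ℕ) (hn : 1 ≤ n) : √((n : ℝ) / 2) ≤ SG.r n := by
  have hmono : ∀ a b : ℕ, 1 ≤ a → a ≤ b → SG.r a ≤ SG.r b := by
    intro a b ha hab
    induction b, hab using Nat.le_induction with
    | base => exact le_rfl
    | succ b hb ih => exact ih.trans (SG.r_lt b (ha.trans hb)).le
  have h1 : 2 ^ Nat.log 2 n ≤ n := Nat.pow_log_le_self 2 (by omega)
  have h2 : n < 2 ^ (Nat.log 2 n + 1) := Nat.lt_pow_succ_log_self (by norm_num) n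
  have h3 := had_le (2 ^ Nat.log 2 n) Nat.one_le_two_pow (SC.hadOrder_pow _)
  have h4 := hmono _ n Nat.one_le_two_pow h1
  refine le_trans (Real.sqrt_le_sqrt ?_) (h3.trans h4)
  have h5 : (n : ℝ) ≤ 2 * ((2 ^ Nat.log 2 n : ℕ) : ℝ) := by
    have : n ≤ 2 * 2 ^ Nat.log 2 n := by rw [pow_succ] at h2; omega
    exact_mod_cast this
  linarith

/-- **Q2 with increments of the right order.** `r n` is the largest Schur multiplier norm of the
`n × n` sign matrices, and `r (n + 1) ≥ r n + (3 / 2500) (r n) ^ 3 / n ^ 2 ≥ r n + 1 / (2500 √n)`. -/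
theorem result :
    (∀ n : ℕ, 1 ≤ n → IsGreatest (SG.signNorms n) (SG.r n)) ∧
    (∀ n : ℕ, 1 ≤ n → SG.r n + 3 / 2500 * (SG.r n ^ 3 / (n : ℝ) ^ 2) ≤ SG.r (n + 1)) ∧
    ∀ n : ℕ, 1 ≤ n → SG.r n + 1 / (2500 * √(n : ℝ)) ≤ SG.r (n + 1) := by
  refine ⟨fun n hn => (SG.r_spec n hn).1, SG.r_growth, fun n hn => ?_⟩
  have h1 := SG.r_growth n hn
  have h2 := half_le n hn
  have hn0 : (0 : ℝ) < n := by exact_mod_cast hn
  set s := √(n : ℝ) with hs
  have hs2 : s * s = n := Real.mul_self_sqrt hn0.le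
  have hs0 : 0 < s := Real.sqrt_pos.2 hn0
  have h3 : √((n : ℝ) / 2) = s / √2 := Real.sqrt_div hn0.le 2
  have h20 : (0 : ℝ) < √2 := Real.sqrt_pos.2 (by norm_num)
  have h22 : √2 * √2 = (2 : ℝ) := Real.mul_self_sqrt (by norm_num)
  have h23 : √2 ≤ 3 / 2 := by
    rw [Real.sqrt_le_left (by norm_num)]; norm_num
  rw [h3] at h2
  -- `(s / √2) ^ 3 ≥ s ^ 3 / 3`
  have h4 : s ^ 3 / 3 ≤ SG.r n ^ 3 := by
    refine le_trans ?_ (pow_le_pow_left₀ (by positivity) h2 3)
    rw [div_pow]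
    apply div_le_div_of_nonneg_left (by positivity) (by positivity)
    calc √2 ^ 3 = (√2 * √2) * √2 := by ring
      _ = 2 * √2 := by rw [h22]
      _ ≤ 3 := by linarith
  have h5 : 1 / (2500 * s) = 3 / 2500 * ((s ^ 3 / 3) / (n : ℝ) ^ 2) := by
    rw [← hs2]; field_simp
  rw [h5]
  have h6 : 3 / 2500 * ((s ^ 3 / 3) / (n : ℝ) ^ 2) ≤ 3 / 2500 * (SG.r n ^ 3 / (n : ℝ) ^ 2) := by
    apply mul_le_mul_of_nonneg_left _ (by norm_num)
    exact div_le_div_of_nonneg_right h4 (by positivity)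
  linarith

end Pool.Agent.Results.MP_c77999_an.SqrtIncrements
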